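import Mathlib
import Pool.Agent.N784.HC.Def

/-!
# The Fourier transform of a harmonic monomial times the gaussian (Hecke), several variables
-/

set_option autoImplicit false

open Complex Filter Topology MeasureTheory

namespace Pool.Agent.N891.HC

open Pool.Agent.N784.HC (Zc GZ Typ StFT)

variable {ι : Type} [Fintype ι]

/-- the bilinear extension of the coordinates -/
noncomputable def Zb (c : ι → ι) (i : ι) (b : ι → ℂ) : ℂ :=
  ((1 + I) * b i + (1 - I) * b (c i)) / 2

/-- the integrand -/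
noncomputable def F (c : ι → ι) (m : ι → ℕ) (b : ι → ℂ) (u : ι → ℝ) : ℂ :=
  (∏ i, Zc c i u ^ m i) * cexp (-(Real.pi : ℂ) * ∑ i, (u i : ℂ) ^ 2 + ∑ i, b i * (u i : ℂ))

omit [Fintype ι] in
lemma norm_Zc_le (c : ι → ι) (i : ι) (u : ι → ℝ) : ‖Zc c i u‖ ≤ |u i| + |u (c i)| := by
  have h1 : ‖(1 + I : ℂ)‖ ≤ 2 := by
    calc ‖(1 + I : ℂ)‖ ≤ ‖(1 : ℂ)‖ + ‖I‖ := norm_add_le _ _
      _ = 2 := by rw [norm_one, norm_I]; norm_num
  have h2 : ‖(1 - I : ℂ)‖ ≤ 2 := by
    calc ‖(1 - I : ℂ)‖ ≤ ‖(1 : ℂ)‖ + ‖I‖ := norm_sub_le _ _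
      _ = 2 := by rw [norm_one, norm_I]; norm_num
  rw [Zc, norm_div, Complex.norm_ofNat, div_le_iff₀ (by norm_num)]
  refine (norm_add_le _ _).trans ?_
  rw [norm_mul, norm_mul, norm_real, norm_real, Real.norm_eq_abs, Real.norm_eq_abs]
  nlinarith [abs_nonneg (u i), abs_nonneg (u (c i))]

lemma norm_Zc_le' (c : ι → ι) (i : ι) (u : ι → ℝ) : ‖Zc c i u‖ ≤ 2 * ∑ k, |u k| := by
  refine (norm_Zc_le c i u).trans ?_
  have h1 : ∀ j, |u j| ≤ ∑ k, |u k| := fun j =>
    Finset.single_le_sum (f := fun k => |u k|) (fun k _ => abs_nonneg _) (Finset.mem_univ j)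
  linarith [h1 i, h1 (c i)]

/-- the monomial is bounded by an exponential -/
lemma norm_mono_le (c : ι → ι) (m : ι → ℕ) (u : ι → ℝ) :
    ‖∏ i, Zc c i u ^ m i‖ ≤ ((∑ i, m i).factorial : ℝ) * Real.exp (2 * ∑ k, |u k|) := by
  have h0 : 0 ≤ 2 * ∑ k, |u k| := mul_nonneg (by norm_num) (Finset.sum_nonneg fun k _ => abs_nonneg _)
  calc ‖∏ i, Zc c i u ^ m i‖ = ∏ i, ‖Zc c i u‖ ^ m i := by
        rw [norm_prod]
        exact Finset.prod_congr rfl fun i _ => norm_pow _ _
    _ ≤ ∏ i, (2 * ∑ k, |u k|) ^ m i :=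
        Finset.prod_le_prod (fun i _ => by positivity) fun i _ =>
          pow_le_pow_left₀ (norm_nonneg _) (norm_Zc_le' c i u) _
    _ = (2 * ∑ k, |u k|) ^ (∑ i, m i) := Finset.prod_pow_eq_pow_sum _ _ _
    _ ≤ _ := by
        have h1 := Real.pow_div_factorial_le_exp (2 * ∑ k, |u k|) h0 (∑ i, m i)
        rw [div_le_iff₀ (by positivity)] at h1
        linarith

/-- linear terms against the gaussian -/
lemma lin_le {A : ℝ} (u : ι → ℝ) :
    A * ∑ k, |u k| ≤ Fintype.card ι * (A ^ 2 / 4) + ∑ k, u k ^ 2 := by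
  have h1 : ∀ k, A * |u k| ≤ A ^ 2 / 4 + u k ^ 2 := by
    intro k
    nlinarith [sq_nonneg (A / 2 - |u k|), sq_abs (u k)]
  calc A * ∑ k, |u k| = ∑ k, A * |u k| := Finset.mul_sum _ _ _
    _ ≤ ∑ k, (A ^ 2 / 4 + u k ^ 2) := Finset.sum_le_sum fun k _ => h1 k
    _ = _ := by rw [Finset.sum_add_distrib, Finset.sum_const, Finset.card_univ, nsmul_eq_mul]

/-- the domination -/
lemma norm_F_le (c : ι → ι) (m : ι → ℕ) {A : ℝ} (b : ι → ℂ) (hb : ∀ i, ‖b i‖ ≤ A)
    (u : ι → ℝ) : ‖F c m b u‖ ≤ ((∑ i, m i).factorial : ℝ) *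
      Real.exp (Fintype.card ι * ((A + 2) ^ 2 / 4)) * Real.exp (-∑ k, u k ^ 2) := by
  have hpi := Real.pi_gt_three
  have hre : (-(Real.pi : ℂ) * ∑ i, (u i : ℂ) ^ 2 + ∑ i, b i * (u i : ℂ)).re ≤
      -Real.pi * ∑ k, u k ^ 2 + A * ∑ k, |u k| := by
    have e1 : (-(Real.pi : ℂ) * ∑ i, (u i : ℂ) ^ 2) = ((-Real.pi * ∑ k, u k ^ 2 : ℝ) : ℂ) := by
      push_cast; ring
    rw [add_re, e1, ofReal_re]
    refine add_le_add le_rfl ?_
    calc (∑ i, b i * (u i : ℂ)).re ≤ ‖∑ i, b i * (u i : ℂ)‖ := re_le_norm _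
      _ ≤ ∑ i, ‖b i * (u i : ℂ)‖ := norm_sum_le _ _
      _ ≤ ∑ i, A * |u i| := by
          refine Finset.sum_le_sum fun i _ => ?_
          rw [norm_mul, norm_real, Real.norm_eq_abs]
          exact mul_le_mul_of_nonneg_right (hb i) (abs_nonneg _)
      _ = _ := (Finset.mul_sum _ _ _).symm
  rw [F, norm_mul, norm_exp]
  have h1 := norm_mono_le c m u
  have h2 := lin_le (A := A + 2) u
  have h3 : 0 ≤ ∑ k, u k ^ 2 := Finset.sum_nonneg fun k _ => sq_nonneg _
  calc _ ≤ ((∑ i, m i).factorial : ℝ) * Real.exp (2 * ∑ k, |u k|) *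
        Real.exp (-Real.pi * ∑ k, u k ^ 2 + A * ∑ k, |u k|) :=
        mul_le_mul h1 (Real.exp_le_exp.2 hre) (Real.exp_pos _).le (by positivity)
    _ = ((∑ i, m i).factorial : ℝ) *
        Real.exp (2 * ∑ k, |u k| + (-Real.pi * ∑ k, u k ^ 2 + A * ∑ k, |u k|)) := by
        rw [mul_assoc, ← Real.exp_add]
    _ ≤ ((∑ i, m i).factorial : ℝ) *
        Real.exp (Fintype.card ι * ((A + 2) ^ 2 / 4) + -∑ k, u k ^ 2) := by
        refine mul_le_mul_of_nonneg_left (Real.exp_le_exp.2 ?_) (by positivity)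
        nlinarith
    _ = _ := by rw [Real.exp_add, mul_assoc]

lemma int_gauss : Integrable (fun u : ι → ℝ => Real.exp (-∑ k, u k ^ 2)) := by
  have h1 : ∀ u : ι → ℝ, Real.exp (-∑ k, u k ^ 2) = ∏ k, Real.exp (-1 * u k ^ 2) := by
    intro u
    rw [← Real.exp_sum]
    congr 1
    rw [← Finset.sum_neg_distrib]
    exact Finset.sum_congr rfl fun k _ => by ring
  simp_rw [h1]
  exact Integrable.fintype_prod (f := fun (_ : ι) (x : ℝ) => Real.exp (-1 * x ^ 2))
    (fun _ => integrable_exp_neg_mul_sq one_pos)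

lemma cont_F (c : ι → ι) (m : ι → ℕ) (b : ι → ℂ) : Continuous (F c m b) := by
  unfold F Zc
  fun_prop

lemma int_F (c : ι → ι) (m : ι → ℕ) (b : ι → ℂ) : Integrable (F c m b) := by
  obtain ⟨A, hA⟩ : ∃ A : ℝ, ∀ i, ‖b i‖ ≤ A := ⟨∑ i, ‖b i‖, fun i =>
    Finset.single_le_sum (f := fun k => ‖b k‖) (fun k _ => norm_nonneg _) (Finset.mem_univ i)⟩
  exact (int_gauss.const_mul _).mono' (cont_F c m b).aestronglyMeasurable
    (Eventually.of_forall fun u => norm_F_le c m b hA u)

/-- the case of exponent zero -/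
lemma base (c : ι → ι) (m : ι → ℕ) (hm : ∀ i, m i = 0) (b : ι → ℂ) :
    ∫ u, F c m b u = cexp (∑ i, b i ^ 2 / (4 * Real.pi)) := by
  have h1 : ∀ u : ι → ℝ, F c m b u = ∏ i, cexp (-(Real.pi : ℂ) * (u i : ℂ) ^ 2 + b i * (u i : ℂ)) := by
    intro u
    rw [F, ← Complex.exp_sum, Finset.sum_add_distrib, Finset.mul_sum]
    simp [hm]
  simp_rw [h1]
  rw [integral_fintype_prod_volume_eq_prod
    (f := fun (i : ι) (x : ℝ) => cexp (-(Real.pi : ℂ) * (x : ℂ) ^ 2 + b i * (x : ℂ))),
    Complex.exp_sum]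
  refine Finset.prod_congr rfl fun i _ => ?_
  have h2 := integral_cexp_quadratic (b := -(Real.pi : ℂ)) (by simp [Real.pi_pos]) (b i) 0
  have hpi : (Real.pi : ℂ) ≠ 0 := by exact_mod_cast Real.pi_ne_zero
  rw [neg_neg, div_self hpi, Complex.one_cpow, one_mul] at h2
  simp only [add_zero] at h2
  rw [h2]
  congr 1
  field_simp
  ring

/-- the vector of the coordinate -/
noncomputable def zv [DecidableEq ι] (c : ι → ι) (j : ι) (k : ι) : ℂ :=
  ((1 + I) * (if k = j then 1 else 0) + (1 - I) * (if k = c j then 1 else 0)) / 2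

section
variable [DecidableEq ι]

lemma sum_zv (c : ι → ι) (j : ι) (b : ι → ℂ) : ∑ k, zv c j k * b k = Zb c j b := by
  have h1 : ∀ k, zv c j k * b k = (1 + I) / 2 * (if k = j then b k else 0) +
      (1 - I) / 2 * (if k = c j then b k else 0) := by
    intro k
    rw [zv]
    split_ifs <;> ring
  simp_rw [h1]
  rw [Finset.sum_add_distrib, ← Finset.mul_sum, ← Finset.mul_sum, Finset.sum_ite_eq',
    Finset.sum_ite_eq', if_pos (Finset.mem_univ _), if_pos (Finset.mem_univ _), Zb]
  ring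

lemma sum_zv_real (c : ι → ι) (j : ι) (u : ι → ℝ) : ∑ k, zv c j k * (u k : ℂ) = Zc c j u :=
  sum_zv c j fun k => (u k : ℂ)

omit [Fintype ι] in
/-- the products of the vectors -/
lemma Zb_zv {c : ι → ι} (hc : ∀ i, c (c i) = i) {i j : ι} (h : j ≠ c i) :
    Zb c i (zv c j) = 0 := by
  have h1 : c i ≠ j := fun h' => h h'.symm
  have h2 : i ≠ c j := fun h' => h (by rw [h', hc])
  rw [Zb, zv, zv]
  by_cases h3 : i = j
  · subst h3
    rw [if_pos rfl, if_neg h2, if_neg h1, if_pos rfl]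
    ring_nf
    rw [I_sq]
    ring
  · have h4 : c i ≠ c j := fun h' => h3 (by rw [← hc i, h', hc])
    rw [if_neg h3, if_neg h2, if_neg h1, if_neg h4]
    ring

/-- the exponent decreased by one -/
def dec (m : ι → ℕ) (j : ι) (i : ι) : ℕ := if i = j then m i - 1 else m i

lemma prod_dec (m : ι → ℕ) (j : ι) (hj : 0 < m j) (x : ι → ℂ) :
    ∏ i, x i ^ m i = (∏ i, x i ^ dec m j i) * x j := by
  have h1 : ∀ i, x i ^ m i = x i ^ dec m j i * (if i = j then x i else 1) := by
    intro i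
    by_cases h : i = j
    · rw [dec, if_pos h, if_pos h, ← pow_succ]
      congr 1
      subst h
      omega
    · rw [dec, if_neg h, if_neg h, mul_one]
  rw [Finset.prod_congr rfl fun i _ => h1 i, Finset.prod_mul_distrib, Finset.prod_ite_eq',
    if_pos (Finset.mem_univ _)]

/-- the derivative of the integral -/
lemma deriv_J (c : ι → ι) (m : ι → ℕ) (j : ι) (hj : 0 < m j) (b : ι → ℂ) :
    HasDerivAt (fun s : ℝ => ∫ u, F c (dec m j) (fun k => b k + s * zv c j k) u)
      (∫ u, F c m b u) 0 := by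
  obtain ⟨A, hA⟩ : ∃ A : ℝ, ∀ i, ‖b i‖ + ‖zv c j i‖ ≤ A := ⟨∑ i, (‖b i‖ + ‖zv c j i‖), fun i =>
    Finset.single_le_sum (f := fun k => ‖b k‖ + ‖zv c j k‖) (fun k _ => by positivity)
      (Finset.mem_univ i)⟩
  have hAs : ∀ s ∈ Metric.ball (0 : ℝ) 1, ∀ i, ‖b i + (s : ℂ) * zv c j i‖ ≤ A := by
    intro s hs i
    have hs' : |s| < 1 := by simpa using hs
    refine (norm_add_le _ _).trans ((add_le_add le_rfl ?_).trans (hA i))
    rw [norm_mul, norm_real, Real.norm_eq_abs]
    exact mul_le_of_le_one_left (norm_nonneg _) hs'.le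
  have key : ∀ (s : ℝ) (u : ι → ℝ), F c m (fun k => b k + (s : ℂ) * zv c j k) u =
      Zc c j u * F c (dec m j) (fun k => b k + (s : ℂ) * zv c j k) u := by
    intro s u
    rw [F, F, prod_dec m j hj]
    ring
  have h := hasDerivAt_integral_of_dominated_loc_of_deriv_le (μ := (volume : Measure (ι → ℝ)))
    (F := fun (s : ℝ) (u : ι → ℝ) => F c (dec m j) (fun k => b k + (s : ℂ) * zv c j k) u)
    (F' := fun (s : ℝ) (u : ι → ℝ) => F c m (fun k => b k + (s : ℂ) * zv c j k) u)
    (x₀ := 0) (s := Metric.ball 0 1)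
    (bound := fun u => ((∑ i, m i).factorial : ℝ) *
      Real.exp (Fintype.card ι * ((A + 2) ^ 2 / 4)) * Real.exp (-∑ k, u k ^ 2))
    (Metric.ball_mem_nhds 0 one_pos)
    (Eventually.of_forall fun s => (cont_F _ _ _).aestronglyMeasurable)
    (int_F _ _ _) (cont_F _ _ _).aestronglyMeasurable
    (Eventually.of_forall fun u s hs => norm_F_le c m _ (hAs s hs) u)
    (int_gauss.const_mul _) ?_
  · have h2 := h.2
    have e1 : (fun k => b k + ((0 : ℝ) : ℂ) * zv c j k) = b := by
      funext k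
      rw [ofReal_zero, zero_mul, add_zero]
    simp only [e1] at h2
    exact h2
  · refine Eventually.of_forall fun u s _ => ?_
    rw [key]
    have h1 : HasDerivAt (fun s : ℝ => ∑ i, (b i + (s : ℂ) * zv c j i) * (u i : ℂ))
        (Zc c j u) s := by
      rw [← sum_zv_real]
      refine HasDerivAt.fun_sum fun i _ => ?_
      have h3 : HasDerivAt (fun s : ℝ => (s : ℂ)) 1 s := (hasDerivAt_id s).ofReal_comp
      have h4 := (((h3.mul_const (zv c j i)).const_add (b i)).mul_const (u i : ℂ))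
      rw [one_mul] at h4
      exact h4
    have h2 := ((h1.const_add (-(Real.pi : ℂ) * ∑ i, (u i : ℂ) ^ 2)).cexp).const_mul
      (∏ i, Zc c i u ^ dec m j i)
    refine h2.congr_deriv ?_
    rw [F]
    ring

/-- **the formula** -/
theorem formula {c : ι → ι} (N : ℕ) : ∀ (m : ι → ℕ), Typ c m → ∑ i, m i = N → ∀ b : ι → ℂ,
    ∫ u, F c m b u = (∏ i, (Zb c i b / (2 * Real.pi)) ^ m i) *
      cexp (∑ i, b i ^ 2 / (4 * Real.pi)) := by
  induction N with
  | zero =>
    intro m hm hN b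
    have h0 : ∀ i, m i = 0 := fun i => (Finset.sum_eq_zero_iff.1 hN) i (Finset.mem_univ i)
    rw [base c m h0 b]
    simp [h0]
  | succ N ih =>
    intro m hm hN b
    obtain ⟨j, hj⟩ : ∃ j, 0 < m j := by
      by_contra hcon
      push Not at hcon
      have : ∑ i, m i = 0 := Finset.sum_eq_zero fun i _ => by have := hcon i; omega
      omega
    have hm' : Typ c (dec m j) := by
      refine ⟨hm.inv, fun i hi => ?_, fun i hi => ?_⟩
      · have h1 := hm.real i hi
        unfold dec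
        split_ifs <;> omega
      · unfold dec
        rcases hm.cpx i hi with h1 | h1
        · left
          split_ifs <;> omega
        · right
          split_ifs <;> omega
    have hN' : ∑ i, dec m j i = N := by
      have h1 : ∀ i, m i = dec m j i + (if i = j then 1 else 0) := by
        intro i
        unfold dec
        by_cases h : i = j
        · subst h
          rw [if_pos rfl, if_pos rfl]
          omega
        · rw [if_neg h, if_neg h, add_zero]
      rw [Finset.sum_congr rfl fun i _ => h1 i, Finset.sum_add_distrib, Finset.sum_ite_eq',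
        if_pos (Finset.mem_univ _)] at hN
      omega
    have h1 := deriv_J c m j hj b
    have h2 : ∀ s : ℝ, ∫ u, F c (dec m j) (fun k => b k + s * zv c j k) u =
        (∏ i, (Zb c i b / (2 * Real.pi)) ^ dec m j i) *
        cexp (∑ i, (b i + s * zv c j i) ^ 2 / (4 * Real.pi)) := by
      intro s
      rw [ih (dec m j) hm' hN']
      congr 1
      refine Finset.prod_congr rfl fun i _ => ?_
      by_cases h3 : dec m j i = 0
      · rw [h3, pow_zero, pow_zero]
      · have h4 : j ≠ c i := by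
          intro h5
          by_cases h6 : c i = i
          · -- a real place
            have h7 := hm.real i h6
            have h8 : i = j := by rw [h5, h6]
            apply h3
            unfold dec
            rw [if_pos h8]
            omega
          · have h7 := hm.cpx i h6
            rw [← h5] at h7
            have h8 : i ≠ j := by
              intro h9
              apply h6
              rw [← h5, h9]
            have h9 : dec m j i = m i := by
              unfold dec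
              rw [if_neg h8]
            rw [h9] at h3
            rcases h7 with h7 | h7 <;> omega
        have h5 : Zb c i (fun k => b k + s * zv c j k) = Zb c i b := by
          have h6 := Zb_zv hm.inv h4
          have h7 : Zb c i (fun k => b k + s * zv c j k) = Zb c i b + s * Zb c i (zv c j) := by
            unfold Zb
            ring
          rw [h7, h6, mul_zero, add_zero]
        rw [h5]
    simp_rw [h2] at h1
    have h3 : HasDerivAt (fun s : ℝ => ∑ i, (b i + (s : ℂ) * zv c j i) ^ 2 / (4 * (Real.pi : ℂ)))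
        (Zb c j b / (2 * Real.pi)) 0 := by
      have h4 : Zb c j b / (2 * Real.pi) =
          ∑ i, (2 * (b i + ((0 : ℝ) : ℂ) * zv c j i) * zv c j i) / (4 * (Real.pi : ℂ)) := by
        rw [← sum_zv, Finset.sum_div]
        refine Finset.sum_congr rfl fun i _ => ?_
        rw [ofReal_zero, zero_mul, add_zero]
        have hpi : (Real.pi : ℂ) ≠ 0 := by exact_mod_cast Real.pi_ne_zero
        field_simp
        ring
      rw [h4]
      refine HasDerivAt.fun_sum fun i _ => ?_
      have h5 : HasDerivAt (fun s : ℝ => (s : ℂ)) 1 (0 : ℝ) := (hasDerivAt_id (0 : ℝ)).ofReal_comp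
      have h6 := (((h5.mul_const (zv c j i)).const_add (b i)).pow 2).div_const
        (4 * (Real.pi : ℂ))
      refine h6.congr_deriv ?_
      simp
    have h4 := (h3.cexp).const_mul (∏ i, (Zb c i b / (2 * Real.pi)) ^ dec m j i)
    have h5 := h1.unique h4
    rw [h5, prod_dec m j hj]
    simp only [ofReal_zero, zero_mul, add_zero]
    ring

end

/-! ### The function `GZ` -/

lemma continuous_GZ (c : ι → ι) (n : ι → ℕ) : Continuous (GZ c n) := by
  unfold GZ Zc
  fun_prop

lemma norm_GZ_le (c : ι → ι) (n : ι → ℕ) : ∃ C : ℝ, 0 ≤ C ∧ ∀ u : ι → ℝ,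
    ‖GZ c n u‖ ≤ C * Real.exp (-2 * ∑ i, u i ^ 2) := by
  refine ⟨((∑ i, n i).factorial : ℝ) * Real.exp (Fintype.card ι * ((2 : ℝ) ^ 2 / 4)),
    by positivity, fun u => ?_⟩
  have hpi := Real.pi_gt_three
  have h1 := norm_mono_le c n u
  have h2 := lin_le (A := 2) u
  have h3 : 0 ≤ ∑ k, u k ^ 2 := Finset.sum_nonneg fun k _ => sq_nonneg _
  rw [GZ, norm_mul, norm_real, Real.norm_of_nonneg (Real.exp_pos _).le]
  calc _ ≤ ((∑ i, n i).factorial : ℝ) * Real.exp (2 * ∑ k, |u k|) *
        Real.exp (-Real.pi * ∑ k, u k ^ 2) :=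
        mul_le_mul_of_nonneg_right h1 (Real.exp_pos _).le
    _ = ((∑ i, n i).factorial : ℝ) *
        Real.exp (2 * ∑ k, |u k| + -Real.pi * ∑ k, u k ^ 2) := by
        rw [mul_assoc, ← Real.exp_add]
    _ ≤ ((∑ i, n i).factorial : ℝ) *
        Real.exp (Fintype.card ι * ((2 : ℝ) ^ 2 / 4) + -2 * ∑ k, u k ^ 2) := by
        refine mul_le_mul_of_nonneg_left (Real.exp_le_exp.2 ?_) (by positivity)
        nlinarith
    _ = _ := by rw [Real.exp_add, mul_assoc]

/-- scaling of the variables -/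
lemma integral_scale {a : ι → ℝ} (ha : ∀ i, 0 < a i) (f : (ι → ℝ) → ℂ) (hf : Continuous f) :
    ∫ x : ι → ℝ, f (fun w => a w * x w) = (∏ w, ((a w : ℝ) : ℂ)⁻¹) * ∫ v, f v := by
  classical
  have hdet : Matrix.det (Matrix.diagonal a) = ∏ w, a w := Matrix.det_diagonal
  have hpos : 0 < ∏ w, a w := Finset.prod_pos fun i _ => ha i
  have h1 := Real.smul_map_diagonal_volume_pi (D := a) (by rw [hdet]; exact hpos.ne')
  have hlin : Continuous (Matrix.toLin' (Matrix.diagonal a)) := LinearMap.continuous_of_finiteDimensional _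
  have h2 : ∫ v, f v = (∏ w, ((a w : ℝ) : ℂ)) * ∫ x : ι → ℝ, f (fun w => a w * x w) := by
    conv_lhs => rw [← h1]
    rw [integral_smul_measure, integral_map hlin.aemeasurable hf.aestronglyMeasurable, hdet,
      abs_of_pos hpos, ENNReal.toReal_ofReal hpos.le]
    rw [Complex.real_smul]
    push_cast
    congr 1
    refine integral_congr_ae (Eventually.of_forall fun x => ?_)
    simp only
    congr 1
    funext w
    simp [Matrix.toLin'_apply, Matrix.mulVec_diagonal]
  have h3 : (∏ w, ((a w : ℝ) : ℂ)) ≠ 0 := by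
    rw [Finset.prod_ne_zero_iff]
    intro i _
    exact_mod_cast (ha i).ne'
  rw [h2, Finset.prod_inv_distrib, inv_mul_cancel_left₀ h3]

/-- **Hecke's formula** -/
theorem t_ft : StFT := by
  intro ι _ c n hn a ha ξ
  classical
  have hpi : (Real.pi : ℂ) ≠ 0 := by exact_mod_cast Real.pi_ne_zero
  have hac : ∀ w, ((a w : ℝ) : ℂ) ≠ 0 := fun w => by exact_mod_cast (ha w).ne'
  obtain ⟨b, hb⟩ : ∃ b : ι → ℂ, b = fun w => -(2 * Real.pi * I) * ((ξ w / a w : ℝ) : ℂ) := ⟨_, rfl⟩
  have h1 : ∀ x : ι → ℝ, cexp (-(2 * Real.pi * I * ((∑ w, ξ w * x w : ℝ) : ℂ))) *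
      GZ c n (fun w => a w * x w) = F c n b (fun w => a w * x w) := by
    intro x
    rw [F, GZ, mul_left_comm, ofReal_exp, ← Complex.exp_add]
    congr 2
    rw [hb]
    push_cast
    rw [add_comm]
    congr 1
    rw [Finset.mul_sum, ← Finset.sum_neg_distrib]
    refine Finset.sum_congr rfl fun w _ => ?_
    have := hac w
    field_simp
  simp_rw [h1]
  rw [integral_scale ha _ (cont_F c n b), formula _ n hn rfl b, GZ, ← mul_assoc ((-I) ^ _)]
  congr 2
  · rw [← Finset.prod_pow_eq_pow_sum, ← Finset.prod_mul_distrib]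
    refine Finset.prod_congr rfl fun i _ => ?_
    rw [← mul_pow]
    congr 1
    rw [Zb, Zc, hb]
    field_simp
    ring
  · rw [ofReal_exp]
    congr 1
    rw [hb]
    push_cast
    rw [Finset.mul_sum]
    refine Finset.sum_congr rfl fun i _ => ?_
    have := hac i
    have hI : I ^ 2 = -1 := I_sq
    field_simp
    rw [hI]
    ring

end Pool.Agent.N891.HC
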